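import Mathlib
import Pool.Agent.H320.Odo.P_main

set_option autoImplicit false

open MeasureTheory Filter Topology
open scoped ContDiff

namespace Pool.Agent.Results.MP_e277fc_an.OdometersRealizable

/-- The torus `𝕋² = (ℝ/ℤ)²`; its measure `volume` is the product of the Haar probability measures
of the two circles, i.e. Lebesgue measure `λ₂`. -/
abbrev Torus2 := UnitAddCircle × UnitAddCircle

/-- The covering projection `ℝ² → 𝕋²`. -/
def proj (z : ℝ × ℝ) : Torus2 := ((z.1 : UnitAddCircle), (z.2 : UnitAddCircle))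

/-- The homeomorphism `f` of `𝕋²` is a `C^∞` diffeomorphism: it lifts to a bijection `F` of `ℝ²`
such that `F` and its inverse are `C^∞`. -/
def IsSmoothDiffeo (f : Torus2 ≃ₜ Torus2) : Prop :=
  ∃ F : (ℝ × ℝ) ≃ (ℝ × ℝ), ContDiff ℝ ∞ F ∧ ContDiff ℝ ∞ F.symm ∧ ∀ z, f (proj z) = proj (F z)

/-- The odometer group with scale `q`: the inverse limit `lim ℤ/q_k`, as a subgroup of the product
`∏ ℤ/q_k` (with the product measurable structure). -/
def Odometer (q : ℕ → ℕ) (hq : ∀ k, q k ∣ q (k + 1)) : AddSubgroup (∀ k, ZMod (q k)) where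
  carrier := {x | ∀ k, ZMod.castHom (hq k) (ZMod (q k)) (x (k + 1)) = x k}
  add_mem' := by
    intro x y hx hy k
    simp only [Pi.add_apply, map_add]
    rw [hx k, hy k]
  zero_mem' := by
    intro k
    simp
  neg_mem' := by
    intro x hx k
    simp only [Pi.neg_apply, map_neg]
    rw [hx k]

/-- The element `1 = (1,1,1,…)` of the odometer group. -/
def one (q : ℕ → ℕ) (hq : ∀ k, q k ∣ q (k + 1)) : Odometer q hq :=
  ⟨fun _ => 1, by intro k; exact map_one _⟩

/-- The transformation `x ↦ x + 1` of the odometer. -/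
def addOne (q : ℕ → ℕ) (hq : ∀ k, q k ∣ q (k + 1)) (x : Odometer q hq) : Odometer q hq :=
  x + one q hq

/-- `m` is a translation invariant probability measure on the odometer group (normalised Haar
measure). -/
def IsHaarProb (q : ℕ → ℕ) (hq : ∀ k, q k ∣ q (k + 1)) (m : Measure (Odometer q hq)) : Prop :=
  IsProbabilityMeasure m ∧ ∀ c : Odometer q hq, Measure.map (fun x => c + x) m = m

/-- Isomorphism modulo null sets of the systems `(α, μ, f)` and `(β, ν, g)`: measure preserving
maps `φ, ψ` which are inverse to each other almost everywhere, with `φ ∘ f = g ∘ φ` almost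
everywhere. -/
def MeasIso {α β : Type*} [MeasurableSpace α] [MeasurableSpace β] (μ : Measure α) (ν : Measure β)
    (f : α → α) (g : β → β) : Prop :=
  ∃ (φ : α → β) (ψ : β → α), MeasurePreserving φ μ ν ∧ MeasurePreserving ψ ν μ ∧
    (∀ᵐ x ∂μ, ψ (φ x) = x) ∧ (∀ᵐ y ∂ν, φ (ψ y) = y) ∧ (∀ᵐ x ∂μ, φ (f x) = g (φ x))

/-- The odometer with scale `q` is smoothly realized on `𝕋²`: there is a `C^∞` diffeomorphism `f`
of `𝕋²` preserving Lebesgue measure such that `(𝕋², λ₂, f)` is isomorphic to `(X, m, x ↦ x + 1)`,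
`m` being the normalised Haar measure of `X` (the unique translation invariant probability
measure). -/
def SmoothlyRealized (q : ℕ → ℕ) (hq : ∀ k, q k ∣ q (k + 1)) : Prop :=
  ∃ f : Torus2 ≃ₜ Torus2, IsSmoothDiffeo f ∧
    MeasurePreserving f (volume : Measure Torus2) volume ∧
    ∃ m : Measure (Odometer q hq), IsHaarProb q hq m ∧ (∀ m', IsHaarProb q hq m' → m' = m) ∧
      MeasIso (volume : Measure Torus2) m f (addOne q hq)

/-- Every non-periodic odometer is isomorphic to a Lebesgue measure preserving `C^∞`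
diffeomorphism of the torus `𝕋²`. -/
theorem result (q : ℕ → ℕ) (hq : ∀ k, q k ∣ q (k + 1)) (hpos : ∀ k, 0 < q k)
    (hlim : Tendsto q atTop atTop) : SmoothlyRealized q hq := by
  have hunb : ∀ M, ∃ k, M ≤ q k := fun M => (hlim.eventually (eventually_ge_atTop M)).exists
  obtain ⟨f, hf1, hf2, m, hm, hiso⟩ := Odo.main q hq hpos hunb
  exact ⟨f, hf1, hf2, m, hm, fun m' hm' => Odo.haar_unique q hq hpos m' m hm' hm, hiso⟩

end Pool.Agent.Results.MP_e277fc_an.OdometersRealizable
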